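import Mathlib

/-!
# Choosing the nodes
-/

set_option autoImplicit false

namespace Pool.Agent.Helper82.ESM

open Finset Polynomial

/-- the base polynomials -/
noncomputable def M (u : ℕ → ℚ) (k : ℕ) : ℚ[X] := ∏ l ∈ range k, (1 + C (u l) * X)

theorem M_zero (u : ℕ → ℚ) : M u 0 = 1 := by simp [M]

theorem M_succ' (u : ℕ → ℚ) (k : ℕ) :
    M u (k + 1) = (1 + C (u 0) * X) * M (fun l => u (l + 1)) k := by
  unfold M
  rw [prod_range_succ', mul_comm]

/-- splitting off a node -/
theorem split_node (f : ℚ[X]) (t : ℚ) (ht : t ≠ 0) :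
    ∃ g : ℚ[X], f = C (f.eval t) + (1 + C (-t⁻¹) * X) * g ∧ g.natDegree = f.natDegree - 1 := by
  have h1 : (X - C t) * ((f - C (f.eval t)) /ₘ (X - C t)) = f - C (f.eval t) := by
    rw [mul_divByMonic_eq_iff_isRoot]
    simp [IsRoot]
  refine ⟨C (-t) * ((f - C (f.eval t)) /ₘ (X - C t)), ?_, ?_⟩
  · have h2 : (1 + C (-t⁻¹) * X : ℚ[X]) * C (-t) = X - C t := by
      have : C t⁻¹ * C t = (1 : ℚ[X]) := by rw [← C_mul, inv_mul_cancel₀ ht, C_1]
      simp only [C_neg]
      linear_combination X * this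
    rw [← mul_assoc, h2, h1]
    ring
  · rw [natDegree_C_mul (neg_ne_zero.2 ht), natDegree_divByMonic _ (monic_X_sub_C t),
      natDegree_X_sub_C, natDegree_sub_C]

/-- the coordinates of a polynomial in the base -/
theorem expand (m : ℕ) : ∀ (u : ℕ → ℚ), (∀ l, u l ≠ 0) → ∀ R : ℚ[X], R.natDegree ≤ m →
    ∃ r : ℕ → ℚ, R = ∑ k ∈ range (m + 1), C (r k) * M u k := by
  induction m with
  | zero =>
    intro u _ R hR
    refine ⟨fun _ => R.coeff 0, ?_⟩
    rw [zero_add, sum_range_one, M_zero, mul_one]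
    exact eq_C_of_natDegree_le_zero hR
  | succ m ih =>
    intro u hu R hR
    obtain ⟨g, hg, hgd⟩ := split_node R (-(u 0)⁻¹) (neg_ne_zero.2 (inv_ne_zero (hu 0)))
    obtain ⟨r, hr⟩ := ih (fun l => u (l + 1)) (fun l => hu _) g (by omega)
    refine ⟨fun k => if k = 0 then R.eval (-(u 0)⁻¹) else r (k - 1), ?_⟩
    rw [sum_range_succ']
    simp only [Nat.add_eq_zero_iff, one_ne_zero, and_false, if_false, Nat.add_sub_cancel, if_true,
      M_zero, mul_one]
    have e : -(-(u 0)⁻¹)⁻¹ = u 0 := by rw [inv_neg, inv_inv, neg_neg]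
    rw [e] at hg
    conv_lhs => rw [hg, hr]
    rw [mul_sum, add_comm]
    congr 1
    refine sum_congr rfl fun k _ => ?_
    rw [M_succ']
    ring

theorem exists_nat_ne {L : Type*} [Field L] [CharZero L] {g : L[X]} (hg : g ≠ 0) :
    ∃ t : ℕ, g.eval (t : L) ≠ 0 := by
  by_contra hcon
  push Not at hcon
  apply hg
  apply eq_zero_of_infinite_isRoot
  refine (Set.infinite_range_of_injective (Nat.cast_injective (R := L))).mono ?_
  rintro _ ⟨t, rfl⟩
  exact hcon t

/-- fixing the first variable -/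
noncomputable def fix {L : Type*} [Field L] {m : ℕ} (c : L) (F : MvPolynomial (Fin (m + 1)) L) :
    MvPolynomial (Fin m) L :=
  MvPolynomial.bind₁ (Fin.cons (MvPolynomial.C c) MvPolynomial.X) F

theorem eval_fix {L : Type*} [Field L] {m : ℕ} (c : L) (F : MvPolynomial (Fin (m + 1)) L)
    (x : Fin m → L) : MvPolynomial.eval x (fix c F) = MvPolynomial.eval (Fin.cons c x) F := by
  unfold fix
  rw [MvPolynomial.eval, MvPolynomial.eval₂Hom_bind₁]
  congr 2
  funext i
  refine Fin.cases ?_ (fun i => ?_) i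
  · simp
  · simp

/-- the polynomial in the first variable -/
noncomputable def first {L : Type*} [Field L] {m : ℕ} (x : Fin m → L)
    (F : MvPolynomial (Fin (m + 1)) L) : L[X] :=
  MvPolynomial.aeval (Fin.cons X (fun i => C (x i)) : Fin (m + 1) → L[X]) F

theorem eval_first {L : Type*} [Field L] {m : ℕ} (c : L) (F : MvPolynomial (Fin (m + 1)) L)
    (x : Fin m → L) : (first x F).eval c = MvPolynomial.eval (Fin.cons c x) F := by
  unfold first
  rw [← coe_evalRingHom, MvPolynomial.aeval_def, MvPolynomial.eval₂_comp_left,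
    MvPolynomial.eval, MvPolynomial.coe_eval₂Hom]
  congr 1
  · ext a; simp
  · funext i
    refine Fin.cases ?_ (fun i => ?_) i
    · simp
    · simp

theorem exists_point {L : Type*} [Field L] [CharZero L] {σ : Type*} {F : MvPolynomial σ L}
    (hF : F ≠ 0) : ∃ x : σ → L, MvPolynomial.eval x F ≠ 0 := by
  by_contra hcon
  push Not at hcon
  apply hF
  apply MvPolynomial.funext
  intro x
  rw [hcon x, map_zero]

/-- the choice of the nodes -/
theorem sel {L : Type*} [Field L] [CharZero L] (m : ℕ) :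
    ∀ f : ℚ[X], f.natDegree = m → f ≠ 0 → ∀ F : MvPolynomial (Fin m) L, F ≠ 0 →
    ∀ Q : MvPolynomial (Fin m) L, Q ≠ 0 →
    ∃ (τ : ℕ → ℕ) (p : ℕ → ℚ), (∀ l, τ l ≠ 0) ∧
      MvPolynomial.eval (fun i : Fin m => (τ i : L)) Q ≠ 0 ∧
      MvPolynomial.eval (fun i : Fin m => ((p i : ℚ) : L)) F ≠ 0 ∧ p m ≠ 0 ∧
      f = ∑ k ∈ range (m + 1), C (p k) * M (fun l => -(τ l : ℚ)⁻¹) k := by
  induction m with
  | zero =>
    intro f hfd hf F hF Q hQ
    have hf1 := eq_C_of_natDegree_le_zero hfd.le
    obtain ⟨x, hx⟩ := exists_point hF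
    obtain ⟨y, hy⟩ := exists_point hQ
    refine ⟨fun _ => 1, fun _ => f.coeff 0, fun _ => one_ne_zero, ?_, ?_, ?_, ?_⟩
    · have e1 : (fun i : Fin 0 => (((fun _ => 1 : ℕ → ℕ) i : ℕ) : L)) = y := by
        funext i; exact i.elim0
      rw [e1]; exact hy
    · have e1 : (fun i : Fin 0 => (((fun _ => f.coeff 0 : ℕ → ℚ) i : ℚ) : L)) = x := by
        funext i; exact i.elim0
      rw [e1]; exact hx
    · intro h
      have h' : f.coeff 0 = 0 := h
      rw [h', C_0] at hf1
      exact hf hf1
    · rw [zero_add, sum_range_one, M_zero, mul_one]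
      exact hf1
  | succ m ih =>
    intro f hfd hf F hF Q hQ
    obtain ⟨x, hx⟩ := exists_point hF
    obtain ⟨y, hy⟩ := exists_point hQ
    have hx' : (first (Fin.tail x) F).eval (x 0) ≠ 0 := by
      rw [eval_first, Fin.cons_self_tail]; exact hx
    have hy' : (first (Fin.tail y) Q).eval (y 0) ≠ 0 := by
      rw [eval_first, Fin.cons_self_tail]; exact hy
    have ha : first (Fin.tail x) F ≠ 0 := by rintro h; rw [h, eval_zero] at hx'; exact hx' rfl
    have hb : first (Fin.tail y) Q ≠ 0 := by rintro h; rw [h, eval_zero] at hy'; exact hy' rfl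
    have hinj : Function.Injective (algebraMap ℚ L) := (algebraMap ℚ L).injective
    have hcomp : (first (Fin.tail x) F).comp (f.map (algebraMap ℚ L)) ≠ 0 := by
      intro h
      rw [comp_eq_zero_iff] at h
      rcases h with h | ⟨-, h⟩
      · exact ha h
      · have h1 : (f.map (algebraMap ℚ L)).natDegree = m + 1 := by
          rw [natDegree_map_eq_of_injective hinj, hfd]
        rw [h, natDegree_C] at h1
        omega
    obtain ⟨t, ht⟩ := exists_nat_ne (mul_ne_zero (mul_ne_zero hcomp hb) (X_ne_zero (R := L)))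
    rw [eval_mul, eval_mul, eval_comp, eval_X] at ht
    have ht0 : (t : L) ≠ 0 := right_ne_zero_of_mul ht
    have ht1 := right_ne_zero_of_mul (left_ne_zero_of_mul ht)
    have ht2 := left_ne_zero_of_mul (left_ne_zero_of_mul ht)
    have htN : t ≠ 0 := by rintro rfl; simp at ht0
    have hev : (f.map (algebraMap ℚ L)).eval (t : L) = ((f.eval (t : ℚ) : ℚ) : L) := by
      rw [eval_map_algebraMap]
      have h2 := (aeval_algebraMap_apply L (t : ℚ) f)
      rw [map_natCast] at h2
      rw [h2]
      simp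
    rw [hev] at ht2
    obtain ⟨g, hg, hgd⟩ := split_node f (t : ℚ) (by exact_mod_cast htN)
    have hgd' : g.natDegree = m := by omega
    have hg0 : g ≠ 0 := by
      rintro rfl
      rw [mul_zero, add_zero] at hg
      rw [hg, natDegree_C] at hfd
      omega
    have hF' : fix ((f.eval (t : ℚ) : ℚ) : L) F ≠ 0 := by
      intro h
      apply ht2
      rw [eval_first, ← eval_fix, h, map_zero]
    have hQ' : fix (t : L) Q ≠ 0 := by
      intro h
      apply ht1
      rw [eval_first, ← eval_fix, h, map_zero]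
    obtain ⟨τ, p, hτ, hQτ, hFp, hpm, hgs⟩ := ih g hgd' hg0 _ hF' _ hQ'
    refine ⟨fun l => if l = 0 then t else τ (l - 1), fun k => if k = 0 then f.eval (t : ℚ)
      else p (k - 1), ?_, ?_, ?_, ?_, ?_⟩
    · intro l
      show (if l = 0 then t else τ (l - 1)) ≠ 0
      split_ifs
      · exact htN
      · exact hτ _
    · rw [eval_fix] at hQτ
      have e : (fun i : Fin (m + 1) => (((if (i : ℕ) = 0 then t else τ (i - 1) : ℕ)) : L)) =
          Fin.cons (t : L) (fun i : Fin m => (τ i : L)) := by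
        funext i
        refine Fin.cases ?_ (fun i => ?_) i
        · simp
        · simp
      show MvPolynomial.eval (fun i : Fin (m + 1) =>
        (((if (i : ℕ) = 0 then t else τ (i - 1) : ℕ)) : L)) Q ≠ 0
      rw [e]
      exact hQτ
    · rw [eval_fix] at hFp
      have e : (fun i : Fin (m + 1) =>
          (((if (i : ℕ) = 0 then f.eval (t : ℚ) else p (i - 1) : ℚ)) : L)) =
          Fin.cons ((f.eval (t : ℚ) : ℚ) : L) (fun i : Fin m => ((p i : ℚ) : L)) := by
        funext i
        refine Fin.cases ?_ (fun i => ?_) i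
        · simp
        · simp
      show MvPolynomial.eval (fun i : Fin (m + 1) =>
        (((if (i : ℕ) = 0 then f.eval (t : ℚ) else p (i - 1) : ℚ)) : L)) F ≠ 0
      rw [e]
      exact hFp
    · simpa using hpm
    · rw [sum_range_succ']
      simp only [Nat.add_eq_zero_iff, one_ne_zero, and_false, if_false, Nat.add_sub_cancel,
        if_true, M_zero, mul_one]
      conv_lhs => rw [hg, hgs]
      rw [mul_sum, add_comm]
      congr 1
      refine sum_congr rfl fun k _ => ?_
      rw [M_succ']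
      simp only [if_true, Nat.add_eq_zero_iff, one_ne_zero, and_false, if_false,
        Nat.add_sub_cancel]
      ring

end Pool.Agent.Helper82.ESM
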