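import Pool.Agent.Helper82.ESM.A

/-!
# The lowest component, and counting the roots
-/

set_option autoImplicit false

namespace Pool.Agent.Helper82.ESM

open Finset Polynomial

/-- **The lowest component.** -/
theorem lowest {L : Type*} [Field L] {σ₁ σ₂ : Type*} [Fintype σ₁] [Fintype σ₂]
    {F : MvPolynomial (σ₁ ⊕ σ₂) L} (hF : F ≠ 0) :
    ∃ T : MvPolynomial (σ₁ ⊕ σ₂) L, T ≠ 0 ∧ T.totalDegree ≤ F.totalDegree ∧
      ∀ (z : σ₁ → L[X]) (y : σ₂ → L),
        MvPolynomial.aeval (Sum.elim z (fun j => C (y j) * X)) F = 0 →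
        MvPolynomial.eval (Sum.elim (fun i => (z i).eval 0) y) T = 0 := by
  classical
  obtain ⟨wt, hwt⟩ : ∃ wt : ((σ₁ ⊕ σ₂) →₀ ℕ) → ℕ, ∀ s, wt s = ∑ j : σ₂, s (Sum.inr j) :=
    ⟨_, fun _ => rfl⟩
  have hne : F.support.Nonempty := by
    rw [Finset.nonempty_iff_ne_empty, Ne, MvPolynomial.support_eq_empty]
    exact hF
  obtain ⟨s₀, hs₀, hmin⟩ := exists_min_image F.support wt hne
  obtain ⟨T, hT⟩ : ∃ T : MvPolynomial (σ₁ ⊕ σ₂) L,
      T = ∑ s ∈ F.support.filter (fun s => wt s = wt s₀), MvPolynomial.monomial s (F.coeff s) :=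
    ⟨_, rfl⟩
  have hcoeff : ∀ s, T.coeff s = if s ∈ F.support.filter (fun s => wt s = wt s₀) then F.coeff s
      else 0 := by
    intro s
    rw [hT, MvPolynomial.coeff_sum]
    simp only [MvPolynomial.coeff_monomial]
    rw [sum_ite_eq']
  have hsupp : T.support ⊆ F.support.filter (fun s => wt s = wt s₀) := by
    intro s hs
    rw [MvPolynomial.mem_support_iff, hcoeff] at hs
    by_contra hcon
    rw [if_neg hcon] at hs
    exact hs rfl
  refine ⟨T, ?_, ?_, ?_⟩
  · intro h
    have h1 := hcoeff s₀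
    rw [h, MvPolynomial.coeff_zero, if_pos (by rw [mem_filter]; exact ⟨hs₀, rfl⟩)] at h1
    exact (MvPolynomial.mem_support_iff.1 hs₀) h1.symm
  · rw [MvPolynomial.totalDegree, MvPolynomial.totalDegree]
    exact Finset.sup_mono (hsupp.trans (filter_subset _ _))
  · intro z y h
    rw [MvPolynomial.aeval_def, MvPolynomial.eval₂_eq'] at h
    have h1 : ∀ s ∈ F.support, (algebraMap L L[X]) (F.coeff s) *
        ∏ i, (Sum.elim z (fun j => C (y j) * X) : σ₁ ⊕ σ₂ → L[X]) i ^ s i =
        X ^ wt s₀ * (X ^ (wt s - wt s₀) * (C (F.coeff s) * ((∏ i : σ₁, z i ^ s (Sum.inl i)) *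
          C (∏ j : σ₂, y j ^ s (Sum.inr j))))) := by
      intro s hs
      rw [Fintype.prod_sum_type]
      simp only [Sum.elim_inl, Sum.elim_inr]
      have h2 : ∏ j : σ₂, (C (y j) * X : L[X]) ^ s (Sum.inr j) =
          C (∏ j : σ₂, y j ^ s (Sum.inr j)) * X ^ wt s := by
        simp_rw [mul_pow]
        rw [prod_mul_distrib, prod_pow_eq_pow_sum, ← hwt, map_prod]
        simp only [C_pow]
      rw [h2, ← mul_assoc (X ^ wt s₀), ← pow_add, Nat.add_sub_cancel' (hmin s hs)]
      rw [← C_eq_algebraMap]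
      ring
    rw [sum_congr rfl h1, ← mul_sum] at h
    have h2 := (mul_eq_zero.1 h).resolve_left (pow_ne_zero _ X_ne_zero)
    have h3 := congrArg (eval 0) h2
    rw [eval_zero, eval_finsetSum] at h3
    rw [hT, map_sum]
    refine Eq.trans ?_ h3
    rw [sum_filter]
    apply sum_congr rfl
    intro s hs
    rw [eval_mul, eval_mul, eval_mul, eval_C, eval_C, eval_pow, eval_X, eval_prod]
    have h4 := hmin s hs
    split_ifs with h5
    · rw [h5, Nat.sub_self, pow_zero, one_mul, MvPolynomial.eval_monomial, Finsupp.prod_fintype]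
      · rw [Fintype.prod_sum_type]
        simp only [Sum.elim_inl, Sum.elim_inr, eval_pow]
      · intro i; rw [pow_zero]
    · rw [zero_pow (by omega), zero_mul]

/-- the linear forms -/
noncomputable def lam (L : Type*) [Field L] [CharZero L] {b : ℕ} (w : Fin b → ℚ) :
    MvPolynomial (Fin b) L :=
  -∑ i, MvPolynomial.C ((w i : ℚ) : L) * MvPolynomial.X i

theorem eval_lam {L : Type*} [Field L] [CharZero L] {b : ℕ} (w y : Fin b → ℚ) :
    MvPolynomial.eval (fun i => ((y i : ℚ) : L)) (lam L w) = ((-∑ i, w i * y i : ℚ) : L) := by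
  unfold lam
  push_cast
  simp

theorem coeff_lam {L : Type*} [Field L] [CharZero L] {b : ℕ} (w : Fin b → ℚ) (i : Fin b) :
    (lam L w).coeff (Finsupp.single i 1) = -((w i : ℚ) : L) := by
  classical
  unfold lam
  rw [MvPolynomial.coeff_neg, MvPolynomial.coeff_sum, sum_eq_single i]
  · rw [MvPolynomial.coeff_C_mul, MvPolynomial.coeff_X, if_pos rfl, mul_one]
  · intro j _ hj
    rw [MvPolynomial.coeff_C_mul, MvPolynomial.coeff_X, if_neg, mul_zero]
    intro h
    exact hj (Finsupp.single_left_injective one_ne_zero h)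
  · intro h; exact absurd (mem_univ _) h

theorem lam_injective {L : Type*} [Field L] [CharZero L] {b : ℕ} :
    Function.Injective (lam L : (Fin b → ℚ) → MvPolynomial (Fin b) L) := by
  intro w w' h
  funext i
  have h1 := coeff_lam (L := L) w i
  rw [h, coeff_lam] at h1
  have h2 := neg_injective h1
  exact (Rat.cast_injective h2).symm

/-- **Counting.** -/
theorem count {L : Type*} [Field L] [CharZero L] {α : Type*} [Fintype α] {b : ℕ}
    (T : MvPolynomial (α ⊕ Option (Fin b)) L) (zz : α → L) (V : Finset ℚ) (hV : 0 ∈ V)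
    (hT : ∃ y : Option (Fin b) → L, MvPolynomial.eval (Sum.elim zz y) T ≠ 0)
    (hroot : ∀ w : Fin b → ℚ, (∀ i, w i ∈ V) → ∀ y : Fin b → ℚ, (∀ i, y i ≠ 0) →
      ∑ i, w i * y i ≠ 0 →
      MvPolynomial.eval (Sum.elim zz (fun o : Option (Fin b) =>
        o.elim ((-∑ i, w i * y i : ℚ) : L) (fun i => ((y i : ℚ) : L)))) T = 0) :
    V.card ^ b ≤ T.totalDegree + 1 := by
  classical
  obtain ⟨TT, hTT⟩ : ∃ TT : MvPolynomial (α ⊕ Option (Fin b)) (MvPolynomial (Fin b) L),
      TT = MvPolynomial.map MvPolynomial.C T := ⟨_, rfl⟩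
  obtain ⟨g, hg⟩ : ∃ g : α ⊕ Option (Fin b) → Polynomial (MvPolynomial (Fin b) L),
      g = Sum.elim (fun a => C (MvPolynomial.C (zz a)))
        (fun o => o.elim X (fun i => C (MvPolynomial.X i))) := ⟨_, rfl⟩
  obtain ⟨P, hP⟩ : ∃ P : Polynomial (MvPolynomial (Fin b) L), P = MvPolynomial.aeval g TT :=
    ⟨_, rfl⟩
  have hdeg : P.natDegree ≤ T.totalDegree := by
    have h1 : TT.totalDegree ≤ T.totalDegree := by
      rw [hTT]
      exact Finset.sup_mono (MvPolynomial.support_map_subset _ _)
    have h2 : ∀ i, (g i).natDegree ≤ 1 := by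
      intro i
      rw [hg]
      rcases i with a | o
      · simp
      · rcases o with _ | i
        · simp
        · simp
    have h3 := MvPolynomial.aeval_natDegree_le TT h1 g h2
    rw [hP]
    rwa [mul_one] at h3
  -- evaluation
  have hev : ∀ (y : Fin b → L) (c : MvPolynomial (Fin b) L),
      MvPolynomial.eval y (P.eval c) = MvPolynomial.eval (Sum.elim zz (fun o : Option (Fin b) =>
        o.elim (MvPolynomial.eval y c) y)) T := by
    intro y c
    have h1 : MvPolynomial.eval y (P.eval c) =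
        (((MvPolynomial.eval y).comp (evalRingHom c)).comp
          (MvPolynomial.aeval (R := MvPolynomial (Fin b) L) g).toRingHom) TT := by
      rw [hP]; rfl
    rw [h1, hTT]
    have h2 : ((((MvPolynomial.eval y).comp (evalRingHom c)).comp
        (MvPolynomial.aeval (R := MvPolynomial (Fin b) L) g).toRingHom).comp
          (MvPolynomial.map MvPolynomial.C)) =
        MvPolynomial.eval (Sum.elim zz (fun o : Option (Fin b) =>
          o.elim (MvPolynomial.eval y c) y)) := by
      apply MvPolynomial.ringHom_ext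
      · intro a
        simp [MvPolynomial.algebraMap_eq]
      · intro i
        rw [hg]
        rcases i with a | o
        · simp
        · rcases o with _ | i
          · simp
          · simp
    exact congrArg (fun φ : MvPolynomial (α ⊕ Option (Fin b)) L →+* L => φ T) h2
  have hP0 : P ≠ 0 := by
    rintro h
    obtain ⟨y, hy⟩ := hT
    apply hy
    have h1 := hev (fun i => y (some i)) (MvPolynomial.C (y none))
    rw [h, eval_zero, map_zero, MvPolynomial.eval_C] at h1
    rw [h1]
    congr 2
    funext i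
    rcases i with a | o
    · rfl
    · rcases o with _ | i <;> rfl
  have hinf : (((fun q : ℚ => (q : L)) '' {q : ℚ | q ≠ 0})).Infinite := by
    apply Set.Infinite.image (Rat.cast_injective.injOn)
    exact (Set.finite_singleton (0 : ℚ)).infinite_compl
  have hzero : ∀ w : Fin b → ℚ, (∀ i, w i ∈ V) → w ≠ 0 → P.eval (lam L w) = 0 := by
    intro w hw hw0
    have hlam0 : lam L w ≠ 0 := by
      intro h
      apply hw0
      apply lam_injective (L := L)
      rw [h]
      unfold lam
      simp
    have h1 : lam L w * P.eval (lam L w) = 0 := by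
      apply MvPolynomial.funext_set (fun _ => (fun q : ℚ => (q : L)) '' {q : ℚ | q ≠ 0})
        (fun _ => hinf)
      intro x hx
      have hx' : ∀ i, ∃ q : ℚ, q ≠ 0 ∧ (q : L) = x i := fun i => hx i (Set.mem_univ _)
      choose y hy0 hy using hx'
      have hxy : x = fun i => ((y i : ℚ) : L) := by funext i; exact (hy i).symm
      rw [hxy, map_mul, map_zero, eval_lam, hev, eval_lam]
      by_cases h2 : ∑ i, w i * y i = 0
      · rw [h2]; simp
      · rw [hroot w hw y hy0 h2, mul_zero]
    exact (mul_eq_zero.1 h1).resolve_left hlam0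
  obtain ⟨W, hW⟩ : ∃ W : Finset (Fin b → ℚ), W = (Fintype.piFinset (fun _ : Fin b => V)).erase 0 :=
    ⟨_, rfl⟩
  have hWcard : V.card ^ b ≤ W.card + 1 := by
    rw [hW, card_erase_of_mem, Fintype.card_piFinset]
    · rw [prod_const, card_univ, Fintype.card_fin]
      omega
    · rw [Fintype.mem_piFinset]
      intro i
      exact hV
  have hsub : W.image (lam L) ⊆ P.roots.toFinset := by
    intro p hp
    rw [mem_image] at hp
    obtain ⟨w, hw, rfl⟩ := hp
    rw [hW, mem_erase, Fintype.mem_piFinset] at hw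
    rw [Multiset.mem_toFinset, mem_roots hP0]
    exact hzero w hw.2 hw.1
  have h1 := card_le_card hsub
  rw [card_image_of_injective _ lam_injective] at h1
  have h2 := (Multiset.toFinset_card_le P.roots).trans (card_roots' P)
  omega

end Pool.Agent.Helper82.ESM
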