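import Pool.Agent.Helper82.ESM.B

/-!
# The degree of a hypersurface which contains many curves
-/

set_option autoImplicit false

namespace Pool.Agent.Helper82.ESM

open Finset Polynomial

/-- the slopes of the nodes -/
noncomputable def uu (τ : ℕ → ℕ) (m l : ℕ) : ℚ := if l = m then 1 else -(τ l : ℚ)⁻¹

theorem uu_ne {τ : ℕ → ℕ} (hτ : ∀ l, τ l ≠ 0) (m l : ℕ) : uu τ m l ≠ 0 := by
  unfold uu
  split_ifs
  · exact one_ne_zero
  · have := hτ l
    rw [neg_ne_zero]
    positivity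

/-- the products of powers of the nodes -/
noncomputable def mon (u : ℕ → ℚ) (m : ℕ) (e : Fin (m + 1) → ℕ) : ℚ[X] :=
  ∏ l : Fin (m + 1), (1 + C (u l) * X) ^ e l

theorem mon_zero (u : ℕ → ℚ) (m : ℕ) : mon u m 0 = 1 := by simp [mon]

theorem mon_eval_zero (u : ℕ → ℚ) (m : ℕ) (e : Fin (m + 1) → ℕ) : (mon u m e).eval 0 = 1 := by
  simp [mon, eval_prod]

theorem node_natDegree {a : ℚ} (ha : a ≠ 0) : (1 + C a * X : ℚ[X]).natDegree = 1 := by
  rw [add_comm, ← C_1]; exact natDegree_linear ha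

theorem node_leadingCoeff {a : ℚ} (ha : a ≠ 0) : (1 + C a * X : ℚ[X]).leadingCoeff = a := by
  rw [add_comm, ← C_1]; exact leadingCoeff_linear ha

theorem node_ne {a : ℚ} : (1 + C a * X : ℚ[X]) ≠ 0 := by
  intro h
  have := congrArg (eval 0) h
  simp at this

theorem mon_natDegree {u : ℕ → ℚ} (hu : ∀ l, u l ≠ 0) (m : ℕ) (e : Fin (m + 1) → ℕ) :
    (mon u m e).natDegree = ∑ l, e l := by
  unfold mon
  rw [natDegree_prod _ _ (fun l _ => pow_ne_zero _ node_ne)]
  apply sum_congr rfl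
  intro l _
  rw [natDegree_pow, node_natDegree (hu _), mul_one]

theorem mon_leadingCoeff {u : ℕ → ℚ} (hu : ∀ l, u l ≠ 0) (m : ℕ) (e : Fin (m + 1) → ℕ) :
    (mon u m e).leadingCoeff = ∏ l : Fin (m + 1), u l ^ e l := by
  unfold mon
  rw [leadingCoeff_prod]
  apply prod_congr rfl
  intro l _
  rw [leadingCoeff_pow, node_leadingCoeff (hu _)]

theorem M_eq_mon (τ : ℕ → ℕ) (m k : ℕ) (hk : k ≤ m) :
    M (fun l => -(τ l : ℚ)⁻¹) k = mon (uu τ m) m (fun l => if (l : ℕ) < k then 1 else 0) := by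
  unfold M mon
  rw [Fin.prod_univ_eq_prod_range
    (fun l => (1 + C (uu τ m l) * X) ^ (if l < k then 1 else 0)) (m + 1)]
  rw [← prod_subset (range_subset_range.2 (show k ≤ m + 1 by omega))]
  · apply prod_congr rfl
    intro l hl
    rw [mem_range] at hl
    rw [if_pos hl, pow_one]
    unfold uu
    rw [if_neg (by omega)]
  · intro l _ hl
    rw [mem_range] at hl
    rw [if_neg hl, pow_zero]

theorem top_eq_mon (τ : ℕ → ℕ) (m e : ℕ) :
    (1 + X : ℚ[X]) ^ e = mon (uu τ m) m (Pi.single (Fin.last m) e) := by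
  unfold mon
  rw [prod_eq_single (Fin.last m)]
  · rw [Pi.single_eq_same]
    unfold uu
    rw [Fin.val_last, if_pos rfl, C_1, one_mul]
  · intro l _ hl
    rw [Pi.single_eq_of_ne hl, pow_zero]
  · intro h; exact absurd (mem_univ _) h

/-- the exponents -/
noncomputable def E (m : ℕ) : Finset (Fin (m + 1) →₀ ℕ) :=
  (univ : Finset (Fin (m + 1))).finsuppAntidiag (m + 1)

theorem card_E (m : ℕ) : (E m).card = (2 * m + 1).choose m := by
  unfold E
  rw [card_finsuppAntidiag_nat_eq_choose, card_univ, Fintype.card_fin]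
  have h1 : m + 1 + (m + 1) - 1 = 2 * m + 1 := by omega
  rw [h1]
  have h2 : 2 * m + 1 = (m + 1) + m := by omega
  rw [h2, Nat.choose_symm_add]

theorem mem_E {m : ℕ} {e : Fin (m + 1) →₀ ℕ} : e ∈ E m ↔ ∑ l, e l = m + 1 := by
  unfold E
  rw [mem_finsuppAntidiag]
  simp

/-- the values -/
noncomputable def val (τ : ℕ → ℕ) (m : ℕ) (e : Fin (m + 1) →₀ ℕ) : ℚ :=
  ∏ l : Fin (m + 1), uu τ m l ^ e l

/-- the set of the values, and zero -/
noncomputable def V (τ : ℕ → ℕ) (m : ℕ) : Finset ℚ := insert 0 ((E m).image (val τ m))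

theorem V_spec {τ : ℕ → ℕ} (hτ : ∀ l, τ l ≠ 0) {m : ℕ} {x : ℚ} (hx : x ∈ V τ m) :
    ∃ e : Fin (m + 1) → ℕ, (mon (uu τ m) m e).natDegree ≤ m + 1 ∧
      (mon (uu τ m) m e).coeff (m + 1) = x := by
  unfold V at hx
  rw [mem_insert, mem_image] at hx
  rcases hx with rfl | ⟨e, he, rfl⟩
  · refine ⟨0, ?_, ?_⟩
    · rw [mon_zero, natDegree_one]; omega
    · rw [mon_zero, coeff_one, if_neg (by omega)]
  · rw [mem_E] at he
    have h1 := mon_natDegree (uu_ne hτ m) m e
    rw [he] at h1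
    refine ⟨e, h1.le, ?_⟩
    have h2 := mon_leadingCoeff (uu_ne hτ m) m e
    rw [leadingCoeff, h1] at h2
    rw [h2]
    rfl

/-- the polynomial whose nonvanishing makes the values distinct -/
noncomputable def Qf (L : Type*) [Field L] (m : ℕ) (e e' : Fin (m + 1) →₀ ℕ) :
    MvPolynomial (Fin m) L :=
  (∏ l : Fin m, (-1 : MvPolynomial (Fin m) L) ^ e l.castSucc * MvPolynomial.X l ^ e' l.castSucc) -
    ∏ l : Fin m, (-1 : MvPolynomial (Fin m) L) ^ e' l.castSucc * MvPolynomial.X l ^ e l.castSucc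

theorem Qf_ne {L : Type*} [Field L] [CharZero L] {m : ℕ} {e e' : Fin (m + 1) →₀ ℕ}
    (he : e ∈ E m) (he' : e' ∈ E m) (hne : e ≠ e') : Qf L m e e' ≠ 0 := by
  classical
  intro h
  rw [mem_E] at he he'
  have hex : ∃ l : Fin m, e l.castSucc ≠ e' l.castSucc := by
    by_contra hcon
    push Not at hcon
    apply hne
    ext l
    refine Fin.lastCases ?_ (fun l => hcon l) l
    rw [Fin.sum_univ_castSucc] at he he'
    rw [sum_congr rfl fun l _ => hcon l] at he
    omega
  have hmono : ∀ a c : Fin (m + 1) →₀ ℕ,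
      (∏ l : Fin m, (-1 : MvPolynomial (Fin m) L) ^ a l.castSucc *
        MvPolynomial.X l ^ c l.castSucc) =
      MvPolynomial.monomial (Finsupp.equivFunOnFinite.symm (fun l : Fin m => c l.castSucc))
        ((-1 : L) ^ ∑ l : Fin m, a l.castSucc) := by
    intro a c
    rw [prod_mul_distrib, prod_pow_eq_pow_sum, MvPolynomial.monomial_eq, Finsupp.prod_fintype]
    · simp
    · intro i; rw [pow_zero]
  unfold Qf at h
  rw [hmono, hmono, sub_eq_zero] at h
  rw [MvPolynomial.monomial_eq_monomial_iff] at h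
  rcases h with ⟨h, -⟩ | ⟨h, -⟩
  · obtain ⟨l, hl⟩ := hex
    have := DFunLike.congr_fun h l
    simp at this
    exact hl this.symm
  · exact pow_ne_zero _ (neg_ne_zero.2 one_ne_zero) h

theorem val_ne {L : Type*} [Field L] [CharZero L] {m : ℕ} {e e' : Fin (m + 1) →₀ ℕ} {τ : ℕ → ℕ}
    (hτ : ∀ l, τ l ≠ 0)
    (h : MvPolynomial.eval (fun i : Fin m => (τ i : L)) (Qf L m e e') ≠ 0) :
    val τ m e ≠ val τ m e' := by
  intro hval
  apply h
  unfold Qf
  rw [map_sub, map_prod, map_prod, sub_eq_zero]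
  unfold val at hval
  rw [Fin.prod_univ_castSucc, Fin.prod_univ_castSucc] at hval
  simp only [uu, Fin.val_castSucc, Fin.val_last, if_true, one_pow, mul_one] at hval
  have h1 : ∀ a : Fin (m + 1) →₀ ℕ, ∏ l : Fin m, (if (l : ℕ) = m then (1 : ℚ)
      else -(τ l : ℚ)⁻¹) ^ a l.castSucc =
      (∏ l : Fin m, (-1 : ℚ) ^ a l.castSucc) * (∏ l : Fin m, (τ l : ℚ) ^ a l.castSucc)⁻¹ := by
    intro a
    rw [← prod_inv_distrib, ← prod_mul_distrib]
    apply prod_congr rfl
    intro l _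
    rw [if_neg (by omega), ← inv_pow, ← mul_pow]
    congr 1
    ring
  rw [h1, h1] at hval
  have h2 : ∀ a : Fin (m + 1) →₀ ℕ, ∏ l : Fin m, (τ l : ℚ) ^ a l.castSucc ≠ 0 := by
    intro a
    rw [prod_ne_zero_iff]
    intro l _
    have := hτ l
    positivity
  rw [← div_eq_mul_inv, ← div_eq_mul_inv, div_eq_div_iff (h2 _) (h2 _), ← prod_mul_distrib,
    ← prod_mul_distrib] at hval
  have h3 := congrArg (fun q : ℚ => (q : L)) hval
  simp only [Rat.cast_prod, Rat.cast_mul, Rat.cast_pow, Rat.cast_neg, Rat.cast_one,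
    Rat.cast_natCast] at h3
  simp only [map_mul, map_pow, map_neg, map_one, MvPolynomial.eval_X]
  exact h3

theorem card_V {m : ℕ} {τ : ℕ → ℕ} (hτ : ∀ l, τ l ≠ 0)
    (h : ∀ e ∈ E m, ∀ e' ∈ E m, e ≠ e' → val τ m e ≠ val τ m e') :
    (V τ m).card = (2 * m + 1).choose m + 1 := by
  classical
  unfold V
  rw [card_insert_of_notMem, card_image_of_injOn, card_E]
  · intro e he e' he' hee
    by_contra hne
    exact h e he e' he' hne hee
  · rw [mem_image]
    rintro ⟨e, -, he⟩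
    unfold val at he
    rw [prod_eq_zero_iff] at he
    obtain ⟨l, -, hl⟩ := he
    exact uu_ne hτ m l (eq_zero_of_pow_eq_zero hl)

theorem totalDegree_bind₁_le {L σ ρ : Type*} [Field L] (g : σ → MvPolynomial ρ L)
    (hg : ∀ i, (g i).totalDegree ≤ 1) (F : MvPolynomial σ L) :
    (MvPolynomial.bind₁ g F).totalDegree ≤ F.totalDegree := by
  rw [MvPolynomial.bind₁, MvPolynomial.aeval_def, MvPolynomial.eval₂]
  refine (MvPolynomial.totalDegree_finsetSum_le (d := F.totalDegree) ?_)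
  intro s hs
  refine (MvPolynomial.totalDegree_mul _ _).trans ?_
  rw [MvPolynomial.algebraMap_eq, MvPolynomial.totalDegree_C, zero_add]
  refine (MvPolynomial.totalDegree_finsetProd _ _).trans ?_
  refine le_trans (sum_le_sum (g := fun i => s i) fun i _ => ?_) (MvPolynomial.le_totalDegree hs)
  refine (MvPolynomial.totalDegree_pow _ _).trans ?_
  have := hg i
  nlinarith

end Pool.Agent.Helper82.ESM
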