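import Pool.Agent.Helper82.ESM.C

/-!
# The degree of a hypersurface which contains many curves, the main step
-/

set_option autoImplicit false

namespace Pool.Agent.Helper82.ESM

open Finset Polynomial

/-- a point of the hyperplane from all but one of its coordinates -/
def ext {R : Type*} [CommRing R] {m b : ℕ} (z : Option (Fin m) ⊕ Option (Fin b) → R) :
    Option (Fin (m + 1)) ⊕ Option (Fin b) → R :=
  Sum.elim (fun o => o.elim (z (Sum.inl none))
    (fun k => Fin.lastCases (motive := fun _ => R) (-∑ j, z j) (fun k => z (Sum.inl (some k))) k))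
    (fun o => z (Sum.inr o))

/-- the coordinates of a point, without one of them -/
def res {R : Type*} {m b : ℕ} (z : Option (Fin (m + 1)) ⊕ Option (Fin b) → R) :
    Option (Fin m) ⊕ Option (Fin b) → R :=
  Sum.elim (fun o => o.elim (z (Sum.inl none)) (fun k => z (Sum.inl (some k.castSucc))))
    (fun o => z (Sum.inr o))

theorem ext_res {R : Type*} [CommRing R] {m b : ℕ}
    (z : Option (Fin (m + 1)) ⊕ Option (Fin b) → R) (hz : ∑ j, z j = 0) : ext (res z) = z := by
  funext j
  rcases j with (_ | k) | o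
  · rfl
  · refine Fin.lastCases ?_ (fun k => ?_) k
    · unfold ext
      simp only [Sum.elim_inl, Option.elim_some, Fin.lastCases_last]
      rw [Fintype.sum_sum_type, Fintype.sum_option, Fin.sum_univ_castSucc] at hz
      rw [Fintype.sum_sum_type, Fintype.sum_option]
      unfold res
      simp only [Sum.elim_inl, Sum.elim_inr, Option.elim_some, Option.elim_none]
      linear_combination (-1 : R) * hz
    · unfold ext res
      simp
  · rfl

theorem map_ext {R S : Type*} [CommRing R] [CommRing S] (φ : R →+* S) {m b : ℕ}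
    (z : Option (Fin m) ⊕ Option (Fin b) → R) :
    (fun j => φ (ext z j)) = ext (fun j => φ (z j)) := by
  funext j
  rcases j with (_ | k) | o
  · rfl
  · refine Fin.lastCases ?_ (fun k => ?_) k
    · simp [ext]
    · simp [ext]
  · rfl

theorem ext_degree {L : Type*} [Field L] {m b : ℕ}
    (j : Option (Fin (m + 1)) ⊕ Option (Fin b)) :
    (ext (MvPolynomial.X : Option (Fin m) ⊕ Option (Fin b) → MvPolynomial _ L) j).totalDegree
      ≤ 1 := by
  have h : ∀ i : Option (Fin m) ⊕ Option (Fin b),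
      (MvPolynomial.X i : MvPolynomial _ L).totalDegree ≤ 1 := fun i =>
    (MvPolynomial.totalDegree_X i).le
  rcases j with (_ | k) | o
  · exact h _
  · refine Fin.lastCases ?_ (fun k => ?_) k
    · simp only [ext, Sum.elim_inl, Option.elim_some, Fin.lastCases_last]
      rw [MvPolynomial.totalDegree_neg]
      exact MvPolynomial.totalDegree_finsetSum_le fun i _ => h i
    · simp only [ext, Sum.elim_inl, Option.elim_some, Fin.lastCases_castSucc]
      exact h _
  · exact h _

theorem core {L : Type*} [Field L] [CharZero L] (m b : ℕ)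
    (G : MvPolynomial (Option (Fin (m + 1)) ⊕ Option (Fin b)) L)
    (hG0 : ∃ z : Option (Fin (m + 1)) ⊕ Option (Fin b) → L,
      ∑ j, z j = 0 ∧ MvPolynomial.eval z G ≠ 0)
    (hG : ∀ τ : ℕ → ℕ, (∀ l, τ l ≠ 0) →
      ∀ a : Option (Fin (m + 1)) ⊕ Option (Fin b) → ℚ, (∀ j, a j ≠ 0) →
      ∀ e : Option (Fin (m + 1)) ⊕ Option (Fin b) → Fin (m + 1) → ℕ,
        e (Sum.inl (some 0)) = 0 → e (Sum.inr none) = Pi.single (Fin.last m) (m + 1) →
        ∑ j, C (a j) * mon (uu τ m) m (e j) = 0 →
        MvPolynomial.eval (fun j => ((a j : ℚ) : L)) G = 0) :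
    ((2 * m + 1).choose m + 1) ^ b ≤ G.totalDegree + 1 := by
  classical
  obtain ⟨F, hF⟩ : ∃ F : MvPolynomial (Option (Fin m) ⊕ Option (Fin b)) L,
    F = MvPolynomial.bind₁ (ext MvPolynomial.X) G := ⟨_, rfl⟩
  have hFeval : ∀ z : Option (Fin m) ⊕ Option (Fin b) → L,
      MvPolynomial.eval z F = MvPolynomial.eval (ext z) G := by
    intro z
    rw [hF, MvPolynomial.eval, MvPolynomial.eval₂Hom_bind₁]
    congr 2
    have := map_ext (MvPolynomial.eval₂Hom (RingHom.id L) z)
      (MvPolynomial.X : Option (Fin m) ⊕ Option (Fin b) → MvPolynomial _ L)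
    rw [this]
    congr 1
    funext j
    simp
  have hFdeg : F.totalDegree ≤ G.totalDegree := by
    rw [hF]
    exact totalDegree_bind₁_le _ ext_degree G
  have hF0 : F ≠ 0 := by
    rintro h
    obtain ⟨z, hz, hz'⟩ := hG0
    apply hz'
    rw [← ext_res z hz, ← hFeval, h, map_zero]
  obtain ⟨T, hT0, hTdeg, hT⟩ := lowest hF0
  -- the point
  obtain ⟨x, hx⟩ := exists_point hT0
  -- the choice of the parameter `t`
  have hmap : ∀ (φ : L[X] →+* L) (hφ : ∀ c, φ (C c) = c) (v : Option (Fin m) ⊕ Option (Fin b) → L[X]),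
      φ (MvPolynomial.aeval v T) = MvPolynomial.eval (fun j => φ (v j)) T := by
    intro φ hφ v
    rw [MvPolynomial.aeval_def, MvPolynomial.eval₂_comp_left, MvPolynomial.eval,
      MvPolynomial.coe_eval₂Hom]
    congr 1
    ext c
    simp [hφ]
  obtain ⟨A, hA⟩ : ∃ A : L[X], A = MvPolynomial.aeval
    (Sum.elim (fun o => o.elim (-X) (fun k => C (x (Sum.inl (some k)))))
      (fun o => C (x (Sum.inr o))) : Option (Fin m) ⊕ Option (Fin b) → L[X]) T := ⟨_, rfl⟩
  have hAeval : ∀ c : L, A.eval c = MvPolynomial.eval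
    (Sum.elim (fun o => o.elim (-c) (fun k => x (Sum.inl (some k)))) (fun o => x (Sum.inr o))) T := by
    intro c
    have := hmap (evalRingHom c) (fun c' => by simp)
      (Sum.elim (fun o => o.elim (-X) (fun k => C (x (Sum.inl (some k)))))
      (fun o => C (x (Sum.inr o))))
    rw [hA]
    refine Eq.trans this ?_
    congr 2
    funext j
    rcases j with (_ | k) | o <;> simp
  have hA0 : A ≠ 0 := by
    rintro h
    apply hx
    have h1 := hAeval (-x (Sum.inl none))
    rw [h, eval_zero] at h1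
    rw [h1]
    congr 2
    funext j
    rcases j with (_ | k) | o <;> simp
  obtain ⟨t, ht⟩ := exists_nat_ne (mul_ne_zero hA0 (X_ne_zero (R := L)))
  rw [eval_mul, eval_X] at ht
  have ht0 : (t : L) ≠ 0 := right_ne_zero_of_mul ht
  have ht1 := left_ne_zero_of_mul ht
  have htN : t ≠ 0 := by rintro rfl; simp at ht0
  have htQ : (t : ℚ) ≠ 0 := by exact_mod_cast htN
  rw [hAeval] at ht1
  -- the polynomial in the middle variables
  obtain ⟨F₂, hF₂⟩ : ∃ F₂ : MvPolynomial (Fin m) L, F₂ = MvPolynomial.bind₁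
    (Sum.elim (fun o => o.elim (MvPolynomial.C (-(t : L)))
      (fun k => MvPolynomial.C (t : L) * MvPolynomial.X k))
      (fun o => MvPolynomial.C (x (Sum.inr o)))) T := ⟨_, rfl⟩
  have hF₂eval : ∀ c : Fin m → L, MvPolynomial.eval c F₂ = MvPolynomial.eval
    (Sum.elim (fun o => o.elim (-(t : L)) (fun k => (t : L) * c k)) (fun o => x (Sum.inr o))) T := by
    intro c
    rw [hF₂, MvPolynomial.eval, MvPolynomial.eval₂Hom_bind₁]
    congr 2
    funext j
    rcases j with (_ | k) | o <;> simp
  have hF₂0 : F₂ ≠ 0 := by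
    rintro h
    apply ht1
    have h1 := hF₂eval (fun k => (t : L)⁻¹ * x (Sum.inl (some k)))
    rw [h, map_zero] at h1
    rw [h1]
    congr 2
    funext j
    rcases j with (_ | k) | o
    · simp
    · simp [ht0]
    · simp
  have hF₃0 : F₂ * ∏ k : Fin m, MvPolynomial.X k ≠ 0 :=
    mul_ne_zero hF₂0 (prod_ne_zero_iff.2 fun k _ => MvPolynomial.X_ne_zero k)
  have hQ0 : ∏ ee ∈ (E m).offDiag, Qf L m ee.1 ee.2 ≠ 0 := by
    rw [prod_ne_zero_iff]
    intro ee hee
    rw [mem_offDiag] at hee
    exact Qf_ne hee.1 hee.2.1 hee.2.2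
  have hfdeg : ((1 + X : ℚ[X]) ^ m).natDegree = m := by
    have h1 : (1 + X : ℚ[X]) = X + C 1 := by rw [C_1, add_comm]
    rw [h1, natDegree_pow, natDegree_X_add_C, mul_one]
  have hf0 : (1 + X : ℚ[X]) ^ m ≠ 0 := by
    apply pow_ne_zero
    have h1 : (1 + X : ℚ[X]) = X + C 1 := by rw [C_1, add_comm]
    rw [h1]
    exact X_add_C_ne_zero 1
  obtain ⟨τ, p, hτ, hQτ, hFp, hpm, hf⟩ := sel m _ hfdeg hf0 _ hF₃0 _ hQ0
  rw [map_prod, prod_ne_zero_iff] at hQτ
  rw [map_mul, map_prod] at hFp
  have hp : ∀ k : Fin m, p k ≠ 0 := by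
    intro k hk
    apply right_ne_zero_of_mul hFp
    rw [prod_eq_zero_iff]
    exact ⟨k, mem_univ _, by rw [MvPolynomial.eval_X, hk, Rat.cast_zero]⟩
  have hp' : ∀ k : Fin (m + 1), p k ≠ 0 := by
    intro k
    refine Fin.lastCases ?_ (fun k => ?_) k
    · simpa using hpm
    · simpa using hp k
  have hFp1 := left_ne_zero_of_mul hFp
  rw [hF₂eval] at hFp1
  -- the values are distinct
  have hcard : (V τ m).card = (2 * m + 1).choose m + 1 := by
    apply card_V hτ
    intro e he e' he' hne
    exact val_ne (L := L) hτ (hQτ (e, e') (by rw [mem_offDiag]; exact ⟨he, he', hne⟩))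
  rw [← hcard]
  refine (count T (fun o : Option (Fin m) => o.elim (-(t : L)) (fun k => (t : L) * (p k : L)))
    (V τ m) (by unfold V; exact mem_insert_self _ _) ⟨_, hFp1⟩ ?_).trans (by omega)
  -- the roots
  intro w hw y hy hwy
  choose e hedeg hecoeff using fun i => V_spec hτ (hw i)
  obtain ⟨lm, hlm⟩ : ∃ lm : ℚ, lm = -∑ i, w i * y i := ⟨_, rfl⟩
  have hlm0 : lm ≠ 0 := by rw [hlm, neg_ne_zero]; exact hwy
  rw [← hlm]
  obtain ⟨R, hR⟩ : ∃ R : ℚ[X], R = C lm * (1 + X) ^ (m + 1) +
    ∑ i, C (y i) * mon (uu τ m) m (e i) := ⟨_, rfl⟩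
  have hRdeg : R.natDegree ≤ m := by
    rw [natDegree_le_iff_coeff_eq_zero]
    intro N hN
    rcases Nat.eq_or_lt_of_le hN with h | h
    · rw [hR, coeff_add, finsetSum_coeff, coeff_C_mul]
      have h1 : ((1 + X : ℚ[X]) ^ (m + 1)).coeff N = 1 := by
        rw [← h, coeff_one_add_X_pow, Nat.choose_self, Nat.cast_one]
      rw [h1, mul_one, hlm]
      simp only [coeff_C_mul]
      rw [neg_add_eq_zero]
      apply sum_congr rfl
      intro i _
      rw [← hecoeff i, ← h]
      ring
    · have h1 : R.natDegree ≤ m + 1 := by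
        rw [hR]
        refine (natDegree_add_le _ _).trans (max_le ?_ ?_)
        · refine (natDegree_C_mul_le _ _).trans ?_
          refine (natDegree_pow_le).trans ?_
          have h1 : (1 + X : ℚ[X]).natDegree ≤ 1 := by
            rw [add_comm, ← C_1, natDegree_X_add_C]
          nlinarith
        · refine natDegree_sum_le_of_forall_le _ _ fun i _ => ?_
          exact (natDegree_C_mul_le _ _).trans (hedeg i)
      exact coeff_eq_zero_of_natDegree_lt (lt_of_le_of_lt h1 h)
  obtain ⟨r, hr⟩ := expand m (fun l => -(τ l : ℚ)⁻¹) (fun l => by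
    have := hτ l
    rw [neg_ne_zero]
    positivity) R hRdeg
  -- the polynomial in `s`
  obtain ⟨zs, hzs⟩ : ∃ zs : Option (Fin m) → L[X], zs = fun o => o.elim (C (-(t : L)))
    (fun k => C ((t : L) * (p k : L)) - C ((r k : ℚ) : L) * X) := ⟨_, rfl⟩
  obtain ⟨ys, hys⟩ : ∃ ys : Option (Fin b) → L, ys = fun o => o.elim ((lm : ℚ) : L)
    (fun i => ((y i : ℚ) : L)) := ⟨_, rfl⟩
  have hg : MvPolynomial.aeval (Sum.elim zs (fun j => C (ys j) * X)) F = 0 := by
    obtain ⟨h, hh⟩ : ∃ h : L[X], h = X * ∏ k : Fin (m + 1), (C ((t : L) * (p k : L)) -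
      C ((r k : ℚ) : L) * X) := ⟨_, rfl⟩
    have hh0 : h ≠ 0 := by
      rw [hh]
      refine mul_ne_zero X_ne_zero (prod_ne_zero_iff.2 fun k _ h0 => ?_)
      have h1 := congrArg (eval 0) h0
      simp only [eval_sub, eval_C, eval_mul, eval_X, mul_zero, sub_zero, eval_zero] at h1
      rcases mul_eq_zero.1 h1 with h2 | h2
      · exact ht0 h2
      · exact hp' k (by exact_mod_cast h2)
    by_contra hcon
    obtain ⟨s, hs⟩ := exists_nat_ne (mul_ne_zero hh0 hcon)
    rw [eval_mul] at hs
    have hs1 := left_ne_zero_of_mul hs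
    apply right_ne_zero_of_mul hs
    rw [hh, eval_mul, eval_prod, eval_X] at hs1
    have hs2 := left_ne_zero_of_mul hs1
    have hs3 := right_ne_zero_of_mul hs1
    rw [prod_ne_zero_iff] at hs3
    have hsN : s ≠ 0 := by rintro rfl; simp at hs2
    have hsQ : (s : ℚ) ≠ 0 := by exact_mod_cast hsN
    obtain ⟨a, ha⟩ : ∃ a : Option (Fin (m + 1)) ⊕ Option (Fin b) → ℚ, a =
      Sum.elim (fun o => o.elim (-(t : ℚ)) (fun k => t * p k - r k * s))
        (fun o => o.elim (lm * s) (fun i => y i * s)) := ⟨_, rfl⟩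
    obtain ⟨ee, hee⟩ : ∃ ee : Option (Fin (m + 1)) ⊕ Option (Fin b) → Fin (m + 1) → ℕ, ee =
      Sum.elim (fun o => o.elim (Pi.single (Fin.last m) m)
        (fun k => fun l => if (l : ℕ) < k then 1 else 0))
        (fun o => o.elim (Pi.single (Fin.last m) (m + 1)) e) := ⟨_, rfl⟩
    have hident : ∑ j, C (a j) * mon (uu τ m) m (ee j) = 0 := by
      rw [Fintype.sum_sum_type, Fintype.sum_option, Fintype.sum_option, ha, hee]
      simp only [Sum.elim_inl, Sum.elim_inr, Option.elim_none, Option.elim_some]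
      rw [← top_eq_mon, ← top_eq_mon]
      have h1 : ∀ k : Fin (m + 1), mon (uu τ m) m (fun l => if (l : ℕ) < k then 1 else 0) =
          M (fun l => -(τ l : ℚ)⁻¹) k := fun k => (M_eq_mon τ m k (by omega)).symm
      simp only [h1]
      rw [Fin.sum_univ_eq_sum_range (fun k => C ((t : ℚ) * p k - r k * s) *
        M (fun l => -(τ l : ℚ)⁻¹) k) (m + 1)]
      have h2 : ∑ k ∈ range (m + 1), C ((t : ℚ) * p k - r k * s) * M (fun l => -(τ l : ℚ)⁻¹) k =
          C (t : ℚ) * ∑ k ∈ range (m + 1), C (p k) * M (fun l => -(τ l : ℚ)⁻¹) k -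
          C (s : ℚ) * ∑ k ∈ range (m + 1), C (r k) * M (fun l => -(τ l : ℚ)⁻¹) k := by
        rw [mul_sum, mul_sum, ← sum_sub_distrib]
        apply sum_congr rfl
        intro k _
        rw [C_sub, C_mul, C_mul]
        ring
      have h3 : ∑ i, C (y i * (s : ℚ)) * mon (uu τ m) m (e i) =
          C (s : ℚ) * ∑ i, C (y i) * mon (uu τ m) m (e i) := by
        rw [mul_sum]
        apply sum_congr rfl
        intro i _
        rw [C_mul]
        ring
      rw [h2, h3, ← hf, ← hr, hR, C_neg, C_mul]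
      ring
    have hasum : ∑ j, a j = 0 := by
      have h1 := congrArg (eval 0) hident
      rw [eval_finsetSum, eval_zero] at h1
      simpa [mon_eval_zero] using h1
    have ha0 : ∀ j, a j ≠ 0 := by
      intro j
      rw [ha]
      rcases j with (_ | k) | (_ | i)
      · simpa using htN
      · have h1 := hs3 k (mem_univ _)
        simp only [eval_sub, eval_C, eval_mul, eval_X] at h1
        show (t : ℚ) * p k - r k * s ≠ 0
        intro h2
        apply h1
        have h3 := congrArg (fun q : ℚ => (q : L)) h2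
        simpa using h3
      · exact mul_ne_zero hlm0 hsQ
      · exact mul_ne_zero (hy i) hsQ
    have hzero := hG τ hτ a ha0 ee (by
      rw [hee]
      funext l
      simp) (by rw [hee]; rfl) hident
    have hasumL : ∑ j, ((a j : ℚ) : L) = 0 := by
      rw [← Rat.cast_sum, hasum, Rat.cast_zero]
    rw [← ext_res _ hasumL, ← hFeval] at hzero
    rw [← hzero]
    have h1 : eval (s : L) (MvPolynomial.aeval (Sum.elim zs (fun j => C (ys j) * X)) F) =
        MvPolynomial.eval (fun j => eval (s : L)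
          ((Sum.elim zs (fun j => C (ys j) * X) : Option (Fin m) ⊕ Option (Fin b) → L[X]) j)) F := by
      rw [← coe_evalRingHom, MvPolynomial.aeval_def, MvPolynomial.eval₂_comp_left,
        MvPolynomial.eval, MvPolynomial.coe_eval₂Hom]
      congr 1
      ext c
      simp
    rw [h1]
    congr 2
    funext j
    rw [hzs, hys, ha]
    rcases j with (_ | k) | (_ | i)
    · simp [res]
    · simp [res]
    · simp [res]
    · simp [res]
  have hroot := hT zs ys hg
  rw [← hroot]
  congr 2
  rw [hzs, hys]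
  funext j
  rcases j with (_ | k) | (_ | i)
  · simp
  · simp
  · simp
  · simp

end Pool.Agent.Helper82.ESM
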