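import Pool.Agent.Helper82.ESM.D
import Pool.Graph.R_seed8.W222.ABCD.NFMain
import Pool.Graph.R_seed8.W222.ABCD.FF

/-!
# The points on the curves
-/

set_option autoImplicit false

namespace Pool.Agent.Helper82.ESM

open Finset Polynomial Filter NumberField
open Pool.Agent.W222.ABCD

theorem exists_family {L : Type*} [Field L] [CharZero L] {m n : ℕ} (hn : m + 3 ≤ n)
    (F : MvPolynomial (Fin n) L) (hF : ∃ w : Fin n → L, ∑ i, w i = 0 ∧ MvPolynomial.eval w F ≠ 0)
    (hdeg : F.totalDegree + 1 < ((2 * m + 1).choose m + 1) ^ (n - m - 3)) :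
    ∃ τ : ℕ → ℕ, (∀ l, τ l ≠ 0) ∧ ∃ a : Fin n → ℚ, (∀ j, a j ≠ 0) ∧
      ∃ e : Fin n → Fin (m + 1) → ℕ, (∃ i, e i = 0) ∧ (∃ i, e i = Pi.single (Fin.last m) (m + 1)) ∧
        ∑ j, C (a j) * mon (uu τ m) m (e j) = 0 ∧
        MvPolynomial.eval (fun j => ((a j : ℚ) : L)) F ≠ 0 := by
  classical
  obtain ⟨b, rfl⟩ : ∃ b, n = m + b + 3 := ⟨n - m - 3, by omega⟩
  have hb : m + b + 3 - m - 3 = b := by omega
  rw [hb] at hdeg
  have hcard : Fintype.card (Option (Fin (m + 1)) ⊕ Option (Fin b)) = m + b + 3 := by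
    simp only [Fintype.card_sum, Fintype.card_option, Fintype.card_fin]
    omega
  obtain ⟨E, -⟩ : ∃ _ : (Option (Fin (m + 1)) ⊕ Option (Fin b)) ≃ Fin (m + b + 3), True :=
    ⟨Fintype.equivFinOfCardEq hcard, trivial⟩
  obtain ⟨G, hG⟩ : ∃ G, G = MvPolynomial.rename E.symm F := ⟨_, rfl⟩
  have hGeval : ∀ z : Option (Fin (m + 1)) ⊕ Option (Fin b) → L,
      MvPolynomial.eval z G = MvPolynomial.eval (fun i => z (E.symm i)) F := by
    intro z
    rw [hG, MvPolynomial.eval_rename]
    rfl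
  by_contra hcon
  push Not at hcon
  have h1 := core m b G ?_ ?_
  · have h2 : G.totalDegree ≤ F.totalDegree := by
      rw [hG]
      exact MvPolynomial.totalDegree_rename_le _ _
    omega
  · obtain ⟨w, hw, hw'⟩ := hF
    refine ⟨fun j => w (E j), ?_, ?_⟩
    · rw [← hw]
      exact Equiv.sum_comp E w
    · rw [hGeval]
      simpa using hw'
  · intro τ hτ a ha e he1 he2 hid
    rw [hGeval]
    refine hcon τ hτ (fun i => a (E.symm i)) (fun i => ha _) (fun i => e (E.symm i))
      ⟨E (Sum.inl (some 0)), by simpa using he1⟩ ⟨E (Sum.inr none), by simpa using he2⟩ ?_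
    rw [← hid]
    exact Equiv.sum_comp E.symm (fun j => C (a j) * mon (uu τ m) m (e j))

/-- a polynomial along a curve -/
noncomputable def along {L : Type*} [Field L] [CharZero L] {m n : ℕ} (F : MvPolynomial (Fin n) L)
    (u : ℕ → ℚ) (a : Fin n → ℚ) (e : Fin n → Fin (m + 1) → ℕ) : L[X] :=
  MvPolynomial.aeval (fun j => C ((a j : ℚ) : L) *
    ∏ l : Fin (m + 1), (1 + C ((u l : ℚ) : L) * X) ^ e j l) F

theorem along_eval {L : Type*} [Field L] [CharZero L] {m n : ℕ} (F : MvPolynomial (Fin n) L)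
    (u : ℕ → ℚ) (a : Fin n → ℚ) (e : Fin n → Fin (m + 1) → ℕ) (x : L) :
    (along F u a e).eval x = MvPolynomial.eval (fun j => ((a j : ℚ) : L) *
      ∏ l : Fin (m + 1), (1 + ((u l : ℚ) : L) * x) ^ e j l) F := by
  unfold along
  rw [← coe_evalRingHom, MvPolynomial.aeval_def, MvPolynomial.eval₂_comp_left,
    MvPolynomial.eval, MvPolynomial.coe_eval₂Hom]
  congr 1
  · ext c; simp
  · funext j
    simp [eval_prod]

theorem along_ne {L : Type*} [Field L] [CharZero L] {m n : ℕ} (F : MvPolynomial (Fin n) L)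
    (u : ℕ → ℚ) (a : Fin n → ℚ) (e : Fin n → Fin (m + 1) → ℕ)
    (h : MvPolynomial.eval (fun j => ((a j : ℚ) : L)) F ≠ 0) :
    (along F u a e).comp (X - 1) ≠ 0 := by
  intro h0
  have h1 := congrArg (eval 1) h0
  rw [eval_comp, eval_sub, eval_X, eval_one, sub_self, eval_zero, along_eval] at h1
  apply h
  rw [← h1]
  congr 2
  funext j
  simp

/-- the identity, evaluated -/
theorem ident_eval {R : Type*} [Field R] [CharZero R] {m n : ℕ} {u : ℕ → ℚ} {a : Fin n → ℚ}
    {e : Fin n → Fin (m + 1) → ℕ} (h : ∑ j, C (a j) * mon u m (e j) = 0) (x : R) :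
    ∑ j, ((a j : ℚ) : R) * ∏ l : Fin (m + 1), (1 + ((u l : ℚ) : R) * x) ^ e j l = 0 := by
  have h1 := congrArg (eval₂ (Rat.castHom R) x) h
  rw [eval₂_zero, eval₂_finsetSum] at h1
  rw [← h1]
  apply sum_congr rfl
  intro j _
  rw [eval₂_mul, eval₂_C]
  unfold mon
  rw [eval₂_finsetProd]
  simp only [eval₂_pow, eval₂_add, eval₂_mul, eval₂_C, eval₂_X, eval₂_one, eq_ratCast]

/-- lower bound for the height of a point with coordinates `c * N` and `l` -/
theorem height_ge' {K : Type*} [Field K] [NumberField K] {n : ℕ} (z : Fin n → K) (N : ℕ)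
    (hN : 1 ≤ N) (c l : K) (hc : c ≠ 0) (hl : l ≠ 0) (i j : Fin n) (hi : z i = c * (N : K))
    (hj : z j = l) :
    Real.log N - Height.logHeight₁ (l / c) / Module.finrank ℚ K ≤ height z := by
  have h0 := finrank_pos' (K := K)
  have h1 : Height.logHeight ![c * (N : K), l] ≤ Height.logHeight z := by
    have := Height.logHeight_comp_le ![i, j] z
    have e : z ∘ ![i, j] = ![c * (N : K), l] := by
      funext a
      fin_cases a
      · simp [hi]
      · simp [hj]
    rwa [e] at this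
  rw [← Height.logHeight₁_div_eq_logHeight] at h1
  have h2 : Height.logHeight₁ (N : K) ≤
      Height.logHeight₁ (c * (N : K) / l) + Height.logHeight₁ (l / c) := by
    have := Height.logHeight₁_mul_le (c * (N : K) / l) (l / c)
    have h4 : c * (N : K) / l * (l / c) = (N : K) := by
      field_simp
    rw [h4] at this
    exact this
  have h3 := logHeight₁_natCast (K := K) N hN
  rw [height, sub_le_iff_le_add, ← add_div, le_div_iff₀ h0]
  linarith

end Pool.Agent.Helper82.ESM
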