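import Pool.Agent.Helper82.ESM.E

/-!
# The points on the curves, over a number field
-/

set_option autoImplicit false

namespace Pool.Agent.Helper82.ESM

open Finset Polynomial Filter NumberField
open Pool.Agent.W222.ABCD

theorem nf {K : Type*} [Field K] [NumberField K] {m n : ℕ} (hn : m + 3 ≤ n) {ε : ℝ} (hε : 0 < ε)
    (hεm : ε * m < 1) {L : Type*} [Field L] [Algebra K L] (F : MvPolynomial (Fin n) L)
    (hF : ∃ w : Fin n → L, ∑ i, w i = 0 ∧ MvPolynomial.eval w F ≠ 0)
    (hdeg : F.totalDegree + 1 < ((2 * m + 1).choose m + 1) ^ (n - m - 3)) (C₀ : ℝ) :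
    ∃ z : Fin n → K, (∀ i, z i ≠ 0) ∧ ∑ i, z i = 0 ∧
      MvPolynomial.eval (fun i => algebraMap K L (z i)) F ≠ 0 ∧
      (1 + ε) * rad z + C₀ ≤ height z := by
  classical
  have hK := finrank_pos' (K := K)
  have : CharZero L := charZero_of_injective_algebraMap (algebraMap K L).injective
  obtain ⟨τ, hτ, a, ha, e, ⟨i₀, hi₀⟩, ⟨i₁, hi₁⟩, hid, hev⟩ := exists_family hn F hF hdeg
  have hR := along_ne F (uu τ m) a e hev
  -- constants
  obtain ⟨P, hP⟩ : ∃ P : ℕ, P = ∏ i, ((a i).num.natAbs * (a i).den) := ⟨_, rfl⟩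
  have hP0 : P ≠ 0 := by
    rw [hP, Finset.prod_ne_zero_iff]
    intro i _
    have h1 : (a i).num.natAbs ≠ 0 := by
      rw [Int.natAbs_ne_zero]
      exact Rat.num_ne_zero.2 (ha i)
    exact Nat.mul_ne_zero h1 (a i).den_ne_zero
  obtain ⟨W, hW⟩ : ∃ W : ℕ, W = ∏ l : Fin m, τ l := ⟨_, rfl⟩
  have hW0 : W ≠ 0 := by
    rw [hW, Finset.prod_ne_zero_iff]
    intro i _
    exact hτ _
  obtain ⟨c0, hc0⟩ : ∃ c0 : ℝ, c0 = Height.logHeight₁ (((a i₀ : ℚ) : K) / ((a i₁ : ℚ) : K)) /
    Module.finrank ℚ K := ⟨_, rfl⟩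
  obtain ⟨c3, hc3⟩ : ∃ c3 : ℝ, c3 = Real.log ((2 * P * W : ℕ) : ℝ) := ⟨_, rfl⟩
  have hl2 : 0 < Real.log 2 := Real.log_pos (by norm_num)
  have hcoef : 0 < Real.log 2 * (1 - ε * m) := mul_pos hl2 (by linarith)
  have hev1 : ∀ᶠ q : ℕ in atTop, (1 + ε) * c3 + C₀ + c0 ≤ Real.log 2 * (1 - ε * m) * q :=
    (tendsto_natCast_atTop_atTop.const_mul_atTop hcoef).eventually_ge_atTop _
  obtain ⟨q, hq1, hqR, hqS⟩ := (hev1.and ((eventually_eval_ne_zero hR).and
    (eventually_ge_atTop (∑ l : Fin m, τ l + 1)))).exists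
  have h2q : ∀ l : Fin m, τ l + 1 < 2 ^ q := by
    intro l
    have h1 : τ l ≤ ∑ l : Fin m, τ l := single_le_sum (f := fun l : Fin m => τ l)
      (fun _ _ => Nat.zero_le _) (mem_univ l)
    have h2 : q < 2 ^ q := Nat.lt_two_pow_self
    omega
  obtain ⟨B, hB⟩ : ∃ B : Fin m → ℕ, B = fun l : Fin m => 2 ^ q - 1 - τ l := ⟨_, rfl⟩
  have hB0 : ∀ l, B l ≠ 0 := by
    intro l
    have := h2q l
    rw [hB]
    show 2 ^ q - 1 - τ l ≠ 0
    omega
  have hBle : ∀ l, B l ≤ 2 ^ q := by
    intro l
    rw [hB]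
    exact (Nat.sub_le _ _).trans (Nat.sub_le _ _)
  -- the nodes
  have hnode : ∀ (R : Type _) [Field R] [CharZero R] (l : Fin m),
      1 + ((uu τ m l.castSucc : ℚ) : R) * ((2 : R) ^ q - 1) = -((B l : R) / (τ l : R)) := by
    intro R _ _ l
    have h1 : (τ l : R) ≠ 0 := by exact_mod_cast hτ l
    have h2 : (B l : R) = 2 ^ q - 1 - τ l := by
      have h3 : (B l + 1 + τ l : ℕ) = 2 ^ q := by
        have := h2q l
        rw [hB]
        show 2 ^ q - 1 - τ l + 1 + τ l = 2 ^ q
        omega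
      have h4 : ((B l + 1 + τ l : ℕ) : R) = ((2 ^ q : ℕ) : R) := by rw [h3]
      push_cast at h4
      rw [← h4]
      ring
    unfold uu
    rw [if_neg (by
      have := l.2
      simp only [Fin.val_castSucc]
      omega)]
    rw [h2]
    push_cast
    simp only [Fin.val_castSucc]
    field_simp
    ring
  have hlast : ∀ (R : Type _) [Field R] [CharZero R],
      1 + ((uu τ m (Fin.last m) : ℚ) : R) * ((2 : R) ^ q - 1) = 2 ^ q := by
    intro R _ _
    unfold uu
    rw [if_pos (Fin.val_last m)]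
    push_cast
    ring
  have hprod : ∀ (R : Type _) [Field R] [CharZero R] (j : Fin n),
      ∏ l : Fin (m + 1), (1 + ((uu τ m l : ℚ) : R) * ((2 : R) ^ q - 1)) ^ e j l =
        (∏ l : Fin m, (-((B l : R) / (τ l : R))) ^ e j l.castSucc) *
          (2 ^ q) ^ e j (Fin.last m) := by
    intro R _ _ j
    rw [Fin.prod_univ_castSucc, hlast]
    congr 1
    apply prod_congr rfl
    intro l _
    rw [← hnode]
  obtain ⟨z, hz⟩ : ∃ z : Fin n → K, z = fun j => ((a j : ℚ) : K) *
    ∏ l : Fin (m + 1), (1 + ((uu τ m l : ℚ) : K) * ((2 : K) ^ q - 1)) ^ e j l := ⟨_, rfl⟩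
  have hz' : ∀ j, z j = ((a j : ℚ) : K) * ((∏ l : Fin m, (-((B l : K) / (τ l : K))) ^
      e j l.castSucc) * (2 ^ q) ^ e j (Fin.last m)) := by
    intro j
    rw [hz]
    show _ * _ = _
    rw [hprod]
  have haK : ∀ j, ((a j : ℚ) : K) ≠ 0 := fun j => by exact_mod_cast ha j
  refine ⟨z, ?_, ?_, ?_, ?_⟩
  · intro j
    rw [hz']
    refine mul_ne_zero (haK j) (mul_ne_zero (prod_ne_zero_iff.2 fun l _ => pow_ne_zero _ ?_)
      (pow_ne_zero _ (pow_ne_zero _ two_ne_zero)))
    rw [neg_ne_zero]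
    exact div_ne_zero (by exact_mod_cast hB0 l) (by exact_mod_cast hτ l)
  · rw [hz]
    exact ident_eval hid _
  · intro h0
    apply hqR
    rw [eval_comp, along_eval, ← h0]
    congr 2
    funext j
    rw [hz]
    simp only [map_mul, map_prod, map_pow, map_add, map_sub, map_one, map_ratCast, map_ofNat,
      eval_sub, eval_X, eval_one]
  · -- the inequality
    have hht : (m + 1) * q * Real.log 2 - c0 ≤ height z := by
      have h1 := height_ge' z ((2 ^ q) ^ (m + 1)) (Nat.one_le_pow _ _ (by positivity))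
        ((a i₁ : ℚ) : K) ((a i₀ : ℚ) : K) (haK _) (haK _) i₁ i₀
        (by
          rw [hz', hi₁]
          have h2 : ∏ l : Fin m, (-((B l : K) / (τ l : K))) ^
              (Pi.single (Fin.last m) (m + 1) : Fin (m + 1) → ℕ) l.castSucc = 1 := by
            apply prod_eq_one
            intro l _
            rw [Pi.single_eq_of_ne (Fin.castSucc_ne_last l), pow_zero]
          rw [h2, Pi.single_eq_same, one_mul]
          push_cast
          rfl)
        (by
          rw [hz', hi₀]
          simp)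
      rw [← hc0] at h1
      push_cast at h1
      rw [Real.log_pow, Real.log_pow] at h1
      push_cast at h1
      linarith
    have hrad : rad z ≤ Real.log ((2 * P * (W * ∏ l, B l) : ℕ) : ℝ) := by
      refine rad_le _ _ ?_ ?_
      · have h1 : ∏ l, B l ≠ 0 := prod_ne_zero_iff.2 fun l _ => hB0 l
        positivity
      · intro v hv
        have hv' : (((2 * P * (W * ∏ l, B l) : ℕ) : ℤ) : 𝓞 K) ∉ v.asIdeal := by
          rwa [Int.cast_natCast]
        have vN : ∀ d : ℕ, d ∣ 2 * P * (W * ∏ l, B l) → v.valuation K (d : K) = 1 := by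
          intro d hd
          have := val_eq_one_of_dvd v (a := (d : ℤ)) (Int.natCast_dvd_natCast.2 hd) hv'
          rwa [Int.cast_natCast] at this
        have v2 : v.valuation K (2 : K) = 1 := by
          have := vN 2 ⟨P * (W * ∏ l, B l), by ring⟩
          exact_mod_cast this
        have vτ : ∀ l : Fin m, v.valuation K ((τ l : ℕ) : K) = 1 := by
          intro l
          apply vN
          have h1 : τ l ∣ W := by rw [hW]; exact Finset.dvd_prod_of_mem _ (Finset.mem_univ l)
          exact h1.trans ⟨2 * P * ∏ l, B l, by ring⟩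
        have vB : ∀ l : Fin m, v.valuation K ((B l : ℕ) : K) = 1 := by
          intro l
          apply vN
          have h1 : B l ∣ ∏ l, B l := Finset.dvd_prod_of_mem _ (Finset.mem_univ l)
          exact h1.trans ⟨2 * P * W, by ring⟩
        have dP : ∀ i, ((a i).num.natAbs * (a i).den : ℕ) ∣ P := fun i => by
          rw [hP]
          exact Finset.dvd_prod_of_mem (fun i => (a i).num.natAbs * (a i).den) (Finset.mem_univ i)
        have dPn : P ∣ 2 * P * (W * ∏ l, B l) := ⟨2 * (W * ∏ l, B l), by ring⟩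
        have va : ∀ i, v.valuation K ((a i : ℚ) : K) = 1 := by
          intro i
          have e1 := vN (a i).num.natAbs ((Dvd.intro _ rfl).trans ((dP i).trans dPn))
          have e2 := vN (a i).den ((Dvd.intro_left _ rfl).trans ((dP i).trans dPn))
          have e3 : v.valuation K (((a i).num : ℤ) : K) = 1 := by
            rcases Int.natAbs_eq (a i).num with h | h
            · rw [h, Int.cast_natCast]; exact e1
            · rw [h, Int.cast_neg, Int.cast_natCast, Valuation.map_neg]; exact e1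
          rw [Rat.cast_def, map_div₀, e3, e2, div_one]
        intro j
        rw [hz', map_mul, va, one_mul, map_mul, map_prod, map_pow, map_pow, v2, one_pow, one_pow,
          mul_one]
        apply prod_eq_one
        intro l _
        rw [map_pow, Valuation.map_neg, map_div₀, vB, vτ, div_one, one_pow]
    have hbound : Real.log ((2 * P * (W * ∏ l, B l) : ℕ) : ℝ) ≤ c3 + m * q * Real.log 2 := by
      have b1 : ∏ l, B l ≤ (2 ^ q) ^ m := by
        calc ∏ l, B l ≤ ∏ _l : Fin m, 2 ^ q := prod_le_prod' fun l _ => hBle l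
          _ = (2 ^ q) ^ m := by rw [prod_const, card_univ, Fintype.card_fin]
      have b3 : 2 * P * (W * ∏ l, B l) ≤ (2 * P * W) * (2 ^ q) ^ m := by
        calc 2 * P * (W * ∏ l, B l) ≤ 2 * P * (W * (2 ^ q) ^ m) := by gcongr
          _ = _ := by ring
      have hpos1 : 0 < 2 * P * (W * ∏ l, B l) := by
        have h1 : ∏ l, B l ≠ 0 := prod_ne_zero_iff.2 fun l _ => hB0 l
        positivity
      have hpos2 : (2 * P * W : ℕ) ≠ 0 := by positivity
      have h3 : Real.log ((2 * P * (W * ∏ l, B l) : ℕ) : ℝ) ≤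
          Real.log (((2 * P * W) * (2 ^ q) ^ m : ℕ) : ℝ) :=
        Real.log_le_log (by exact_mod_cast hpos1) (by exact_mod_cast b3)
      refine h3.trans (le_of_eq ?_)
      rw [Nat.cast_mul (2 * P * W), Real.log_mul (by exact_mod_cast hpos2) (by positivity), ← hc3]
      push_cast
      rw [Real.log_pow, Real.log_pow]
      ring
    have hrad' := hrad.trans hbound
    have h5 : (1 + ε) * rad z ≤ (1 + ε) * (c3 + m * q * Real.log 2) :=
      mul_le_mul_of_nonneg_left hrad' (by linarith)
    have h6 : (1 + ε) * (c3 + m * q * Real.log 2) + C₀ + c0 =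
        ((1 + ε) * c3 + C₀ + c0) + (m + 1) * q * Real.log 2 -
          Real.log 2 * (1 - ε * m) * q := by ring
    linarith

end Pool.Agent.Helper82.ESM
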