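import Pool.Agent.Helper82.ESM.E

/-!
# The points on the curves, over the rational function field
-/

set_option autoImplicit false

namespace Pool.Agent.Helper82.ESM

open Finset Polynomial Filter
open Pool.Agent.W222.ABCD

theorem ff {k : Type*} [Field k] [CharZero k] {m n : ℕ} (hn : m + 3 ≤ n) {ε : ℝ}
    (hε : 0 < ε) (hεm : ε * m < 1) {L : Type*} [Field L] [Algebra (RatFunc k) L]
    (F : MvPolynomial (Fin n) L)
    (hF : ∃ w : Fin n → L, ∑ i, w i = 0 ∧ MvPolynomial.eval w F ≠ 0)
    (hdeg : F.totalDegree + 1 < ((2 * m + 1).choose m + 1) ^ (n - m - 3)) (C₀ : ℝ) :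
    ∃ z : Fin n → RatFunc k, (∀ i, z i ≠ 0) ∧ ∑ i, z i = 0 ∧
      MvPolynomial.eval (fun i => algebraMap (RatFunc k) L (z i)) F ≠ 0 ∧
      (1 + ε) * FF.rad z + C₀ ≤ FF.height z := by
  classical
  have : CharZero (RatFunc k) := charZero_of_injective_algebraMap
    (algebraMap k (RatFunc k)).injective
  have : CharZero L := charZero_of_injective_algebraMap (algebraMap (RatFunc k) L).injective
  obtain ⟨τ, hτ, a, ha, e, ⟨i₀, hi₀⟩, ⟨i₁, hi₁⟩, hid, hev⟩ := exists_family hn F hF hdeg
  have hR := along_ne F (uu τ m) a e hev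
  -- the parameter
  obtain ⟨x, hx⟩ : ∃ x : L, x = algebraMap (RatFunc k) L RatFunc.X := ⟨_, rfl⟩
  have hxinj : Function.Injective (fun q : ℕ => x ^ q) := by
    intro a b h
    have h1 : (RatFunc.X : RatFunc k) ^ a = RatFunc.X ^ b := by
      apply (algebraMap (RatFunc k) L).injective
      rw [map_pow, map_pow, ← hx]
      exact h
    have h2 := congrArg RatFunc.intDegree h1
    have h3 : ∀ c : ℕ, ((RatFunc.X : RatFunc k) ^ c).intDegree = c := by
      intro c
      rw [← RatFunc.algebraMap_X, ← map_pow, RatFunc.intDegree_polynomial, natDegree_X_pow]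
    rw [h3, h3] at h2
    exact_mod_cast h2
  have hevR : ∀ᶠ q : ℕ in atTop, ((along F (uu τ m) a e).comp (X - 1)).eval (x ^ q) ≠ 0 := by
    have h1 : {q : ℕ | ¬ ((along F (uu τ m) a e).comp (X - 1)).eval (x ^ q) ≠ 0}.Finite := by
      refine Set.Finite.of_finite_image (f := fun q : ℕ => x ^ q)
        (((along F (uu τ m) a e).comp (X - 1)).roots.toFinset.finite_toSet.subset ?_) hxinj.injOn
      rintro _ ⟨q, hq, rfl⟩
      have hq' : ((along F (uu τ m) a e).comp (X - 1)).eval (x ^ q) = 0 := not_not.1 hq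
      simp only [Finset.mem_coe, Multiset.mem_toFinset]
      rw [mem_roots hR]
      exact hq'
    have := Set.Finite.compl_mem_cofinite h1
    rw [Nat.cofinite_eq_atTop] at this
    filter_upwards [this] with q hq
    exact not_not.1 hq
  have hcoef : 0 < 1 - ε * m := by linarith
  have hev1 : ∀ᶠ q : ℕ in atTop, (1 + ε) * 2 + C₀ ≤ (1 - ε * m) * (q : ℝ) :=
    (tendsto_natCast_atTop_atTop.const_mul_atTop hcoef).eventually_ge_atTop _
  obtain ⟨q, hq1, hqR, hqpos⟩ := (hev1.and (hevR.and (eventually_ge_atTop 1))).exists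
  -- the nodes
  obtain ⟨N, hN⟩ : ∃ N : ℕ → k[X], N = fun l => 1 + C ((uu τ m l : ℚ) : k) * (X ^ q - 1) :=
    ⟨_, rfl⟩
  have hNlast : N m = X ^ q := by
    rw [hN]
    show 1 + C ((uu τ m m : ℚ) : k) * (X ^ q - 1) = X ^ q
    unfold uu
    rw [if_pos rfl, Rat.cast_one, C_1]
    ring
  have hNdeg : ∀ l, (N l).natDegree ≤ q := by
    intro l
    rw [hN]
    refine (natDegree_add_le _ _).trans (max_le (by rw [natDegree_one]; omega) ?_)
    refine (natDegree_C_mul_le _ _).trans ?_
    refine (natDegree_sub_le _ _).trans (max_le (natDegree_X_pow_le _) ?_)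
    rw [natDegree_one]
    omega
  have hN0 : ∀ l, N l ≠ 0 := by
    intro l h
    have h1 := congrArg (eval 1) h
    rw [hN] at h1
    simp at h1
  obtain ⟨p, hp⟩ : ∃ p : Fin n → k[X], p = fun j => C ((a j : ℚ) : k) *
    ∏ l : Fin (m + 1), N l ^ e j l := ⟨_, rfl⟩
  have hak : ∀ j, ((a j : ℚ) : k) ≠ 0 := fun j => by exact_mod_cast ha j
  have hp0 : ∀ i, p i ≠ 0 := by
    intro i
    rw [hp]
    exact mul_ne_zero (C_ne_zero.2 (hak i)) (prod_ne_zero_iff.2 fun l _ => pow_ne_zero _ (hN0 l))
  have hzeq : ∀ j, algebraMap k[X] (RatFunc k) (p j) = ((a j : ℚ) : RatFunc k) *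
      ∏ l : Fin (m + 1), (1 + ((uu τ m l : ℚ) : RatFunc k) * (RatFunc.X ^ q - 1)) ^ e j l := by
    intro j
    rw [hp, hN]
    have h1 : ∀ c : ℚ, algebraMap k[X] (RatFunc k) (C ((c : ℚ) : k)) = ((c : ℚ) : RatFunc k) := by
      intro c
      rw [RatFunc.algebraMap_C, map_ratCast]
    simp only [map_mul, map_prod, map_pow, map_add, map_sub, map_one, h1, RatFunc.algebraMap_X]
  refine ⟨fun i => algebraMap k[X] (RatFunc k) (p i), ?_, ?_, ?_, ?_⟩
  · intro i h
    rw [← map_zero (algebraMap k[X] (RatFunc k))] at h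
    exact hp0 i (IsFractionRing.injective k[X] (RatFunc k) h)
  · simp only [hzeq]
    exact ident_eval hid _
  · intro h0
    apply hqR
    rw [eval_comp, along_eval, ← h0]
    congr 2
    funext j
    show _ = algebraMap (RatFunc k) L (algebraMap k[X] (RatFunc k) (p j))
    rw [hzeq]
    simp only [map_mul, map_prod, map_pow, map_add, map_sub, map_one, map_ratCast, ← hx,
      eval_sub, eval_X, eval_one]
  · -- the inequality
    have hht : ((m + 1) * q : ℝ) ≤ FF.height (fun i => algebraMap k[X] (RatFunc k) (p i)) := by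
      have h1 := FF.height_ge p ((a i₀ : ℚ) : k) i₀ (by
        rw [hp]
        show C ((a i₀ : ℚ) : k) * ∏ l : Fin (m + 1), N l ^ e i₀ l = _
        rw [hi₀]
        simp) i₁
      have h2 : (p i₁).natDegree = (m + 1) * q := by
        have h3 : p i₁ = C ((a i₁ : ℚ) : k) * (X ^ q) ^ (m + 1) := by
          rw [hp]
          show C ((a i₁ : ℚ) : k) * ∏ l : Fin (m + 1), N l ^ e i₁ l = _
          rw [hi₁, prod_eq_single (Fin.last m)]
          · rw [Pi.single_eq_same, Fin.val_last, hNlast]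
          · intro l _ hl
            rw [Pi.single_eq_of_ne hl, pow_zero]
          · intro h; exact absurd (mem_univ _) h
        rw [h3, natDegree_C_mul (hak _), ← pow_mul, natDegree_X_pow]
        ring
      rw [h2] at h1
      exact_mod_cast h1
    obtain ⟨r, hr⟩ : ∃ r : k[X], r = X * ∏ l : Fin m, N l := ⟨_, rfl⟩
    have hr0 : r ≠ 0 := by
      rw [hr]
      exact mul_ne_zero X_ne_zero (prod_ne_zero_iff.2 fun l _ => hN0 l)
    have hrdeg : r.natDegree ≤ 1 + m * q := by
      rw [hr]
      refine natDegree_mul_le.trans (Nat.add_le_add natDegree_X_le ?_)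
      refine (natDegree_prod_le _ _).trans ?_
      have h1 : ∑ l : Fin m, (N l).natDegree ≤ ∑ _l : Fin m, q :=
        sum_le_sum fun l _ => hNdeg l
      rwa [sum_const, card_univ, Fintype.card_fin, smul_eq_mul] at h1
    have hrad : FF.rad (fun i => algebraMap k[X] (RatFunc k) (p i)) ≤ 2 + m * q := by
      refine (FF.rad_le p r hr0 ?_).trans (by omega)
      intro c hc i
      rw [hr, eval_mul, eval_X, eval_prod] at hc
      have hc1 : c ≠ 0 := left_ne_zero_of_mul hc
      have hc2 := right_ne_zero_of_mul hc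
      rw [prod_ne_zero_iff] at hc2
      rw [hp]
      show (C ((a i : ℚ) : k) * ∏ l : Fin (m + 1), N l ^ e i l).eval c ≠ 0
      rw [eval_mul, eval_C, eval_prod]
      refine mul_ne_zero (hak i) (prod_ne_zero_iff.2 fun l _ => ?_)
      rw [eval_pow]
      apply pow_ne_zero
      refine Fin.lastCases ?_ (fun l => ?_) l
      · rw [Fin.val_last, hNlast, eval_pow, eval_X]
        exact pow_ne_zero _ hc1
      · rw [Fin.val_castSucc]
        exact hc2 l (mem_univ _)
    have hradR : (FF.rad (fun i => algebraMap k[X] (RatFunc k) (p i)) : ℝ) ≤ 2 + m * q := by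
      exact_mod_cast hrad
    have h5 := mul_le_mul_of_nonneg_left hradR (by linarith : (0 : ℝ) ≤ 1 + ε)
    have h6 : (1 + ε) * (2 + (m : ℝ) * q) + C₀ =
        ((1 + ε) * 2 + C₀) + (m + 1) * q - (1 - ε * m) * q := by ring
    linarith

end Pool.Agent.Helper82.ESM
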